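import Mathlib
import Pool.Agent.Helper18.SK.Defs

/-! PE: factor counts of a power, closed up cyclically, are divisible by `n`. -/

set_option autoImplicit false

namespace Pool.Agent.Helper74.SK

open Pool.Agent.Helper18.SK

theorem facs_eq {α : Type} (k : ℕ) (hk : 1 ≤ k) (y : List α) :
    facs k y = (List.range (y.length + 1 - k)).map (fun i => (y.drop i).take k) := by
  induction y with
  | nil =>
    have h : 0 + 1 - k = 0 := by omega
    simp [facs, h]
    omega
  | cons a y ih =>
    have hrec : facs k (a :: y) =
        if k ≤ (a :: y).length then (a :: y).take k :: facs k y else facs k y := by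
      unfold facs
      rw [List.tails_cons, List.filter_cons]
      by_cases h : k ≤ (a :: y).length
      · rw [if_pos h, if_pos (by simpa using h), List.map_cons]
      · rw [if_neg h, if_neg (by simpa using h)]
    rw [hrec]
    split_ifs with h
    · have h1 : (a :: y).length + 1 - k = (y.length + 1 - k) + 1 := by
        simp only [List.length_cons] at h ⊢
        omega
      rw [h1, List.range_succ_eq_map, List.map_cons, List.map_map, ih]
      rfl
    · have h1 : (a :: y).length + 1 - k = 0 := by
        simp only [List.length_cons] at h ⊢
        omega
      have h2 : y.length + 1 - k = 0 := by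
        simp only [List.length_cons] at h ⊢
        omega
      rw [ih, h1, h2]
      rfl

theorem getElem?_pow {α : Type} (z : List α) (n t : ℕ) (ht : t < n * z.length) :
    (List.replicate n z).flatten[t]? = z[t % z.length]? := by
  induction n generalizing t with
  | zero => simp at ht
  | succ n ih =>
    rw [List.replicate_succ, List.flatten_cons]
    by_cases h : t < z.length
    · rw [List.getElem?_append_left h, Nat.mod_eq_of_lt h]
    · push Not at h
      rw [List.getElem?_append_right h, ih (t - z.length) (by
        rw [Nat.succ_mul] at ht; omega)]
      congr 1
      conv_rhs => rw [← Nat.sub_add_cancel h]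
      rw [Nat.add_mod_right]

theorem count_period {β : Type} [BEq β] (f : ℕ → β) (L n : ℕ) (x : β)
    (hf : ∀ i, i < n * L → f i = f (i % L)) :
    ((List.range (n * L)).map f).count x = n * ((List.range L).map f).count x := by
  induction n with
  | zero => simp
  | succ n ih =>
    rw [Nat.succ_mul, List.range_add, List.map_append, List.count_append, ih (fun i hi => hf i (by
      rw [Nat.succ_mul]; omega)), Nat.succ_mul]
    congr 1
    rw [List.map_map]
    congr 1
    apply List.map_congr_left
    intro i hi
    have hi' := List.mem_range.1 hi
    show f (n * L + i) = f i
    rw [hf (n * L + i) (by rw [Nat.succ_mul]; omega)]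
    congr 1
    rw [Nat.add_comm, Nat.add_mul_mod_self_right, Nat.mod_eq_of_lt hi']

theorem pe : GPer := by
  intro α _ k n z x hk hn hz hkn hx
  set zn := (List.replicate n z).flatten with hzn
  have hlen : zn.length = n * z.length := by
    rw [hzn]
    simp
  set y := zn ++ zn.take (k - 1) with hy
  have hylen : y.length = n * z.length + (k - 1) := by
    rw [hy, List.length_append, List.length_take, hlen]
    omega
  have hzpos : 0 < z.length := List.length_pos_iff.2 hz
  have hget : ∀ t, t < n * z.length + (k - 1) → y[t]? = z[t % z.length]? := by
    intro t ht
    by_cases h : t < n * z.length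
    · rw [hy, List.getElem?_append_left (by rw [hlen]; exact h), hzn, getElem?_pow z n t h]
    · push Not at h
      have h1 : t - n * z.length < k - 1 := by omega
      rw [hy, List.getElem?_append_right (by rw [hlen]; exact h), hlen,
        List.getElem?_take, if_pos h1, hzn, getElem?_pow z n _ (by omega)]
      congr 1
      conv_rhs => rw [← Nat.sub_add_cancel h]
      rw [Nat.add_mul_mod_self_right]
  have hfac : ∀ i, i < n * z.length →
      (y.drop i).take k = (y.drop (i % z.length)).take k := by
    intro i hi
    apply List.ext_getElem?
    intro j
    rw [List.getElem?_take, List.getElem?_take]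
    split_ifs with hj
    · have hle : i % z.length ≤ i := Nat.mod_le _ _
      rw [List.getElem?_drop, List.getElem?_drop, hget (i + j) (by omega),
        hget (i % z.length + j) (by omega), Nat.mod_add_mod]
    · rfl
  rw [facs_eq k hk y]
  have h1 : y.length + 1 - k = n * z.length := by omega
  rw [h1, count_period (fun i => (y.drop i).take k) z.length n x hfac]
  exact Dvd.intro _ rfl

end Pool.Agent.Helper74.SK
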